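import Mathlib
import Pool.Agent.N436.DF.Stm

/-!
# Project DF (helper436): lowering a capacity (helper403)
-/

set_option autoImplicit false

namespace Pool.Agent.N403.DF

open Finset Pool.Agent.N436.DF

variable {V : Type} [DecidableEq V]

/-- the change of the capacity -/
def dl (H : Hub V) (i : Bool) (x : V) : ℤ := H.c i x - max (-1) (H.c i x - 1)

theorem dl_le {P : Par} {H : Hub V} (hH : Ok P H) (i : Bool) (x : V) :
    0 ≤ dl H i x ∧ dl H i x ≤ 1 := by
  have h := hH.c_ge i x
  unfold dl
  rcases max_cases (-1 : ℤ) (H.c i x - 1) with h1 | h1 <;> omega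

theorem low_c (H : Hub V) (i i' : Bool) (x v : V) :
    (low H i x).c i' v = H.c i' v - (if i' = i ∧ v = x then dl H i x else 0) := by
  show (if i' = i ∧ v = x then max (-1) (H.c i' v - 1) else H.c i' v) = _
  by_cases h : i' = i ∧ v = x
  · obtain ⟨rfl, rfl⟩ := h
    rw [if_pos ⟨rfl, rfl⟩, if_pos ⟨rfl, rfl⟩]
    unfold dl
    ring
  · rw [if_neg h, if_neg h, sub_zero]

theorem wt_low (P : Par) (H : Hub V) (i : Bool) (x v : V) :
    wt P (low H i x) v = wt P H v - (if v = x then kap P i * dl H i x else 0) := by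
  unfold wt
  rw [low_c, low_c]
  by_cases h : v = x
  · cases i <;> simp [h, kap] <;> ring
  · simp [h]

theorem rho_low (P : Par) (H : Hub V) (i : Bool) (x : V) (Y : Finset V) :
    rho P (low H i x) Y = rho P H Y - (if x ∈ Y then 2 * (kap P i * dl H i x) else 0) := by
  have h1 : ∀ u v, ew P (low H i x) u v = ew P H u v := fun u v => rfl
  have h2 : ∑ v ∈ Y, wt P (low H i x) v = ∑ v ∈ Y, wt P H v -
      (if x ∈ Y then kap P i * dl H i x else 0) := by
    rw [Finset.sum_congr rfl fun v _ => wt_low P H i x v, Finset.sum_sub_distrib,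
      Finset.sum_ite_eq']
  unfold rho
  simp only [h1]
  rw [h2]
  split_ifs <;> ring

theorem kap_pos (P : Par) (i : Bool) : 0 < kap P i := by
  have h1 := P.hb
  have h2 := P.hd
  have h3 := P.hab
  cases i
  · show 0 < P.b
    omega
  · show 0 < P.a
    omega

theorem load_nonneg {P : Par} {H : Hub V} (hH : Ok P H) (S : Finset V) (f : V → Bool)
    (p : V → V → ℤ) (hp : ∀ u v, 0 ≤ p u v) (u : V) : 0 ≤ load H S f p u := by
  unfold load
  refine Finset.sum_nonneg fun v _ => ?_
  split_ifs
  · rcases hH.r01 u v with h | h <;> omega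
  · exact hp u v

theorem low_ok : S_low := by
  intro V _ P H i x hH
  refine ⟨?_, ?_, ?_, ?_, ?_⟩
  · have hj := P.hj
    have hjk := P.hjk
    refine ⟨fun i' v => ?_, fun v => ?_, fun v => ?_, hH.r01, hH.rsymm, hH.r0, hH.m_nn, hH.msymm,
      hH.m0⟩
    · show -1 ≤ (if i' = i ∧ v = x then max (-1) (H.c i' v - 1) else H.c i' v)
      split_ifs
      · exact le_max_left _ _
      · exact hH.c_ge i' v
    · rw [low_c]
      have h1 := hH.c1_le v
      have h2 := (dl_le hH i x).1
      split_ifs <;> omega
    · rw [low_c]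
      have h1 := hH.c2_le v
      have h2 := (dl_le hH i x).1
      split_ifs <;> omega
  · intro Y
    rw [rho_low]
    have h1 := (dl_le hH i x).2
    have h2 := kap_pos P i
    have h3 : kap P i * dl H i x ≤ kap P i := by nlinarith
    split_ifs <;> linarith
  · intro X Y hx hXY
    rw [rho_low, rho_low, if_pos hx, if_pos (hXY hx)]
    ring
  · intro S f p h
    have hload : ∀ u, load (low H i x) S f p u = load H S f p u := fun u => rfl
    refine ⟨⟨h.nn, h.pay, fun u hu => ?_⟩, fun hx hf => ?_⟩
    · have h1 := h.cap u hu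
      rw [hload, low_c] at h1
      have h2 := (dl_le hH i x).1
      split_ifs at h1 <;> omega
    · have h1 := h.cap x hx
      have h0 := load_nonneg hH S f p h.nn x
      rw [hload] at h1
      have h3 : (low H i x).c (f x) x = max (-1) (H.c (f x) x - 1) := by
        show (if f x = i ∧ x = x then max (-1) (H.c (f x) x - 1) else H.c (f x) x) = _
        rw [if_pos ⟨hf, rfl⟩]
      rw [h3, hf] at h1
      rcases max_cases (-1 : ℤ) (H.c i x - 1) with h4 | h4 <;> omega
  · intro S f p h hx
    have hload : ∀ u, load (low H i x) S f p u = load H S f p u := fun u => rfl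
    refine ⟨h.nn, h.pay, fun u hu => ?_⟩
    rw [hload]
    show _ ≤ (if f u = i ∧ u = x then max (-1) (H.c (f u) u - 1) else H.c (f u) u)
    split_ifs with h1
    · obtain ⟨h2, rfl⟩ := h1
      have h3 := hx hu h2
      rw [h2]
      have := le_max_right (-1 : ℤ) (H.c i u - 1)
      omega
    · exact h.cap u hu

end Pool.Agent.N403.DF
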